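import Pool.Agent.TH198.AT.Stmts

/-! # AT-F0: the explicit solution of the Parisi equation for a one-point measure -/

set_option autoImplicit false

open MeasureTheory ProbabilityTheory Set

namespace Pool.TH509.AT

open Pool.TH198.AT

lemma sech_pos (x : ℝ) : 0 < sech x := by
  unfold sech
  exact inv_pos.2 (Real.cosh_pos x)

lemma sech_le_one (x : ℝ) : sech x ≤ 1 := by
  unfold sech
  exact inv_le_one_of_one_le₀ (Real.one_le_cosh x)

lemma cosh_ne (x : ℝ) : Real.cosh x ≠ 0 := (Real.cosh_pos x).ne'

lemma sech_tanh (x : ℝ) : sech x ^ 2 + Real.tanh x ^ 2 = 1 := by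
  unfold sech
  rw [Real.tanh_eq_sinh_div_cosh]
  have h1 := Real.cosh_sq x
  have h2 := cosh_ne x
  field_simp
  linarith

lemma hasDerivAt_lc (x : ℝ) : HasDerivAt (fun x => Real.log (Real.cosh x)) (Real.tanh x) x := by
  have := (Real.hasDerivAt_cosh x).log (cosh_ne x)
  rwa [← Real.tanh_eq_sinh_div_cosh] at this

lemma hasDerivAt_th (x : ℝ) : HasDerivAt Real.tanh (sech x ^ 2) x := by
  have h1 := (Real.hasDerivAt_sinh x).div (Real.hasDerivAt_cosh x) (cosh_ne x)
  have h2 : (fun y => Real.sinh y / Real.cosh y) = Real.tanh := by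
    funext y; rw [Real.tanh_eq_sinh_div_cosh]
  have h3 : (Real.sinh / Real.cosh) = Real.tanh := by
    funext y; rw [Pi.div_apply, Real.tanh_eq_sinh_div_cosh]
  rw [h3] at h1
  have h4 : (Real.cosh x * Real.cosh x - Real.sinh x * Real.sinh x) / Real.cosh x ^ 2 =
      sech x ^ 2 := by
    unfold sech
    have h1 := Real.cosh_sq x
    have h2 := cosh_ne x
    field_simp
    linarith
  rwa [h4] at h1

lemma hasDerivAt_sech (x : ℝ) : HasDerivAt sech (-(sech x * Real.tanh x)) x := by
  have h1 := (Real.hasDerivAt_cosh x).inv (cosh_ne x)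
  have h3 : (Real.cosh)⁻¹ = sech := by
    funext y; rw [Pi.inv_apply]; rfl
  rw [h3] at h1
  have h4 : -Real.sinh x / Real.cosh x ^ 2 = -(sech x * Real.tanh x) := by
    unfold sech
    rw [Real.tanh_eq_sinh_div_cosh]
    have h2 := cosh_ne x
    field_simp
  rwa [h4] at h1

lemma cont_sech : Continuous sech :=
  continuous_iff_continuousAt.2 fun x => (hasDerivAt_sech x).continuousAt

lemma cont_tanh : Continuous Real.tanh :=
  continuous_iff_continuousAt.2 fun x => (hasDerivAt_th x).continuousAt

lemma abs_tanh (x : ℝ) : |Real.tanh x| ≤ 1 := (Real.abs_tanh_lt_one x).le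

lemma C2b_lc : C2b (fun x => Real.log (Real.cosh x)) Real.tanh (fun x => sech x ^ 2) := by
  refine ⟨hasDerivAt_lc, hasDerivAt_th, cont_sech.pow 2, 1, fun x => ⟨abs_tanh x, ?_⟩⟩
  rw [abs_of_nonneg (sq_nonneg _)]
  exact pow_le_one₀ (sech_pos x).le (sech_le_one x)

lemma hasDerivAt_s2 (x : ℝ) :
    HasDerivAt (fun x => sech x ^ 2) (-2 * sech x ^ 2 * Real.tanh x) x := by
  have h : HasDerivAt (fun x => sech x ^ 2)
      (((2 : ℕ) : ℝ) * sech x ^ (2 - 1) * -(sech x * Real.tanh x)) x :=
    (hasDerivAt_sech x).pow 2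
  refine h.congr_deriv ?_
  rw [show (2 - 1 : ℕ) = 1 from rfl, pow_one]
  push_cast
  ring

lemma C2b_th : C2b Real.tanh (fun x => sech x ^ 2) (fun x => -2 * sech x ^ 2 * Real.tanh x) := by
  refine ⟨hasDerivAt_th, hasDerivAt_s2, ?_, 2, fun x => ⟨?_, ?_⟩⟩
  · exact (continuous_const.mul (cont_sech.pow 2)).mul cont_tanh
  · rw [abs_of_nonneg (sq_nonneg _)]
    have := pow_le_one₀ (n := 2) (sech_pos x).le (sech_le_one x)
    linarith
  · rw [abs_mul, abs_mul, abs_of_nonneg (sq_nonneg (sech x))]
    have h1 := pow_le_one₀ (n := 2) (sech_pos x).le (sech_le_one x)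
    have h2 := abs_tanh x
    have h3 : |(-2 : ℝ)| = 2 := by norm_num
    rw [h3]
    have h4 : 0 ≤ sech x ^ 2 := sq_nonneg _
    nlinarith [abs_nonneg (Real.tanh x)]

lemma C2b_s2 : C2b (fun x => sech x ^ 2) (fun x => -2 * sech x ^ 2 * Real.tanh x)
    (fun x => 4 * sech x ^ 2 * Real.tanh x ^ 2 - 2 * sech x ^ 4) := by
  refine ⟨hasDerivAt_s2, fun x => ?_, ?_, 8, fun x => ⟨?_, ?_⟩⟩
  · have h : HasDerivAt (fun x => -2 * sech x ^ 2 * Real.tanh x)
        (-2 * (-2 * sech x ^ 2 * Real.tanh x) * Real.tanh x + -2 * sech x ^ 2 * sech x ^ 2) x :=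
      ((hasDerivAt_s2 x).const_mul (-2 : ℝ)).mul (hasDerivAt_th x)
    refine h.congr_deriv ?_
    ring
  · exact ((continuous_const.mul (cont_sech.pow 2)).mul (cont_tanh.pow 2)).sub
      (continuous_const.mul (cont_sech.pow 4))
  · have := (C2b_th.2.2.2)
    rw [abs_mul, abs_mul, abs_of_nonneg (sq_nonneg (sech x))]
    have h1 := pow_le_one₀ (n := 2) (sech_pos x).le (sech_le_one x)
    have h2 := abs_tanh x
    have h3 : |(-2 : ℝ)| = 2 := by norm_num
    rw [h3]
    have h4 : 0 ≤ sech x ^ 2 := sq_nonneg _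
    nlinarith [abs_nonneg (Real.tanh x)]
  · have h1 := pow_le_one₀ (n := 2) (sech_pos x).le (sech_le_one x)
    have h5 := pow_le_one₀ (n := 4) (sech_pos x).le (sech_le_one x)
    have h6 : 0 ≤ sech x ^ 4 := by positivity
    have h4 : 0 ≤ sech x ^ 2 := sq_nonneg _
    have h2 : Real.tanh x ^ 2 ≤ 1 := (Real.tanh_sq_lt_one x).le
    have h7 : 0 ≤ Real.tanh x ^ 2 := sq_nonneg _
    have h8 : 0 ≤ sech x ^ 2 * Real.tanh x ^ 2 := mul_nonneg h4 h7
    have h9 : sech x ^ 2 * Real.tanh x ^ 2 ≤ 1 := by nlinarith
    rw [abs_le]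
    constructor <;> nlinarith

lemma E1_const (c : ℝ) : E1 (fun _ => c) = c := by
  unfold E1
  rw [integral_const]
  simp

lemma E1_abs_le {F : ℝ → ℝ} {C : ℝ} (h : ∀ x, |F x| ≤ C) : |E1 F| ≤ C := by
  unfold E1
  have := norm_integral_le_of_norm_le_const (μ := gaussianReal 0 1) (f := F) (C := C)
    (Filter.Eventually.of_forall fun x => by rw [Real.norm_eq_abs]; exact h x)
  simpa using this

lemma sq_zero {β q t : ℝ} (h : q ≤ t) : √(2 * β ^ 2 * (q - t)) = 0 := by
  apply Real.sqrt_eq_zero_of_nonpos
  have h1 : q - t ≤ 0 := by linarith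
  have h2 : 0 ≤ 2 * β ^ 2 := by positivity
  nlinarith

/-- uniform formula for the heat extensions -/
noncomputable def he (f : ℝ → ℝ) (β q t x : ℝ) : ℝ :=
  E1 (fun y => f (x + √(2 * β ^ 2 * (q - t)) * y))

lemma he_of_le (f : ℝ → ℝ) {β q t : ℝ} (h : q ≤ t) (x : ℝ) : he f β q t x = f x := by
  unfold he
  rw [sq_zero h]
  simp only [zero_mul, add_zero]
  exact E1_const _

lemma he_cont (hH : St_HEAT) {f f1 f2 : ℝ → ℝ} (hf : C2b f f1 f2) (β q : ℝ) :
    Continuous (fun p : ℝ × ℝ => he f β q p.1 p.2) := by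
  have h1 := (hH f f1 f2 hf).2
  have h2 : Continuous fun p : ℝ × ℝ => ((p.2, 2 * β ^ 2 * (q - p.1)) : ℝ × ℝ) := by fun_prop
  exact h1.comp h2

theorem t_F0 (hH : St_HEAT) (hX : St_HEATX) : St_F0 := by
  intro β q hβ hq0 hq1
  refine ⟨he Real.tanh β q, he (fun x => sech x ^ 2) β q, ?_, ?_, ?_, ?_, ?_⟩
  · intro t ht x
    constructor
    · have h1 := hX (fun x => Real.log (Real.cosh x)) Real.tanh 1 hasDerivAt_lc cont_tanh abs_tanh
        (√(2 * β ^ 2 * (q - t))) x
      by_cases h : q ≤ t
      · have e : f0 β q t = fun x => Real.log (Real.cosh x) + β ^ 2 * (1 - t) := by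
          funext x
          unfold f0
          rw [if_pos h]
        rw [e, he_of_le _ h]
        exact (hasDerivAt_lc x).add_const _
      · have e : f0 β q t = fun x => E1 (fun y => Real.log (Real.cosh (x +
            √(2 * β ^ 2 * (q - t)) * y))) + β ^ 2 * (1 - q) := by
          funext x
          unfold f0
          rw [if_neg h]
        rw [e]
        exact h1.add_const _
    · refine hX Real.tanh (fun x => sech x ^ 2) 1 hasDerivAt_th (cont_sech.pow 2) (fun x => ?_)
        (√(2 * β ^ 2 * (q - t))) x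
      rw [abs_of_nonneg (sq_nonneg _)]
      exact pow_le_one₀ (sech_pos x).le (sech_le_one x)
  · exact (he_cont hH C2b_th β q).continuousOn
  · exact (he_cont hH C2b_s2 β q).continuousOn
  · refine ⟨1, fun t _ x => ⟨E1_abs_le fun y => abs_tanh _, E1_abs_le fun y => ?_⟩⟩
    rw [abs_of_nonneg (sq_nonneg _)]
    exact pow_le_one₀ (sech_pos _).le (sech_le_one _)
  · -- the integrated equation
    have hup : ∀ t x : ℝ, q ≤ t → t ≤ 1 → f0 β q t x = Real.log (Real.cosh x) +
        ∫ r in t..1, β ^ 2 * (he (fun x => sech x ^ 2) β q r x +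
          one q r * he Real.tanh β q r x ^ 2) := by
      intro t x h ht1
      have e : ∫ r in t..1, β ^ 2 * (he (fun x => sech x ^ 2) β q r x +
          one q r * he Real.tanh β q r x ^ 2) = ∫ r in t..1, β ^ 2 := by
        apply intervalIntegral.integral_congr
        intro r hr
        rw [uIcc_of_le ht1] at hr
        have hqr : q ≤ r := h.trans hr.1
        simp only [he_of_le _ hqr]
        unfold one
        rw [if_pos hqr, one_mul, sech_tanh, mul_one]
      rw [e, intervalIntegral.integral_const, smul_eq_mul]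
      unfold f0
      rw [if_pos h]
      ring
    intro t ht x
    by_cases h : q ≤ t
    · exact hup t x h ht.2
    · push Not at h
      -- continuity of the integrand on `[t,q]`
      have hc2 : Continuous fun r => he (fun x => sech x ^ 2) β q r x :=
        (he_cont hH C2b_s2 β q).comp (by fun_prop : Continuous fun r : ℝ => ((r, x) : ℝ × ℝ))
      have hc0 : Continuous fun r => he (fun x => Real.log (Real.cosh x)) β q r x :=
        (he_cont hH C2b_lc β q).comp (by fun_prop : Continuous fun r : ℝ => ((r, x) : ℝ × ℝ))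
      -- fundamental theorem
      have hftc : ∫ r in t..q, -(β ^ 2 * he (fun x => sech x ^ 2) β q r x) =
          he (fun x => Real.log (Real.cosh x)) β q q x -
            he (fun x => Real.log (Real.cosh x)) β q t x := by
        refine intervalIntegral.integral_eq_sub_of_hasDerivAt_of_le h.le hc0.continuousOn ?_ ?_
        · intro r hr
          have hv : 0 < 2 * β ^ 2 * (q - r) := by
            have : 0 < q - r := by linarith [hr.2]
            positivity
          have h1 := (hH _ _ _ C2b_lc).1 x (2 * β ^ 2 * (q - r)) hv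
          have h2 : HasDerivAt (fun r : ℝ => 2 * β ^ 2 * (q - r)) (-(2 * β ^ 2)) r := by
            have := ((hasDerivAt_id r).const_sub q).const_mul (2 * β ^ 2)
            simpa using this
          have h3 := h1.comp r h2
          have e : E1 (fun y => (fun x => sech x ^ 2) (x + √(2 * β ^ 2 * (q - r)) * y)) / 2 *
              -(2 * β ^ 2) = -(β ^ 2 * he (fun x => sech x ^ 2) β q r x) := by
            unfold he
            ring
          rw [e] at h3
          exact h3
        · exact ((continuous_const.mul hc2).neg).intervalIntegrable _ _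
      rw [he_of_le _ le_rfl, intervalIntegral.integral_neg] at hftc
      -- almost everywhere equality on `[t,q]`
      have hae : ∀ᵐ r ∂volume, r ∈ uIoc t q → β ^ 2 * he (fun x => sech x ^ 2) β q r x =
          β ^ 2 * (he (fun x => sech x ^ 2) β q r x + one q r * he Real.tanh β q r x ^ 2) := by
        have hne : ∀ᵐ r ∂(volume : Measure ℝ), r ≠ q := by
          have : volume ({q} : Set ℝ) = 0 := by simp
          exact measure_eq_zero_iff_ae_notMem.1 this
        filter_upwards [hne] with r hrq hr
        rw [uIoc_of_le h.le] at hr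
        have hlt : r < q := lt_of_le_of_ne hr.2 hrq
        unfold one
        rw [if_neg (not_le.2 hlt), zero_mul, add_zero]
      have hI1 : IntervalIntegrable (fun r => β ^ 2 * (he (fun x => sech x ^ 2) β q r x +
          one q r * he Real.tanh β q r x ^ 2)) volume t q := by
        have hcc : Continuous fun r => β ^ 2 * he (fun x => sech x ^ 2) β q r x :=
          continuous_const.mul hc2
        refine (hcc.intervalIntegrable (μ := volume) t q).congr_ae ?_
        rw [Filter.EventuallyEq, ae_restrict_iff' measurableSet_uIoc]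
        exact hae
      have hI2 : IntervalIntegrable (fun r => β ^ 2 * (he (fun x => sech x ^ 2) β q r x +
          one q r * he Real.tanh β q r x ^ 2)) volume q 1 := by
        refine (intervalIntegrable_const (c := β ^ 2)).congr ?_
        intro r hr
        rw [uIoc_of_le hq1] at hr
        have hqr : q ≤ r := hr.1.le
        simp only [he_of_le _ hqr]
        unfold one
        rw [if_pos hqr, one_mul, sech_tanh, mul_one]
      have hsplit := intervalIntegral.integral_add_adjacent_intervals hI1 hI2
      have hup1 := hup q x le_rfl hq1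
      have e1 : ∫ r in t..q, β ^ 2 * (he (fun x => sech x ^ 2) β q r x +
          one q r * he Real.tanh β q r x ^ 2) =
          ∫ r in t..q, β ^ 2 * he (fun x => sech x ^ 2) β q r x :=
        (intervalIntegral.integral_congr_ae hae).symm
      have e2 : f0 β q q x = Real.log (Real.cosh x) + β ^ 2 * (1 - q) := by
        unfold f0
        rw [if_pos le_rfl]
      have e3 : f0 β q t x = he (fun x => Real.log (Real.cosh x)) β q t x + β ^ 2 * (1 - q) := by
        unfold f0
        rw [if_neg (not_le.2 h)]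
        rfl
      rw [e3, ← hsplit, e1]
      rw [e2] at hup1
      linarith

end Pool.TH509.AT
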